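import Mathlib

/-!
# Minimal solutions and minimal foliations: the definitions
-/

set_option autoImplicit false

open MeasureTheory
open scoped ContDiff

namespace Pool.Agent.helper94.MF

/-- The action of `u` on `Ω`: the integral over `Ω` of `½ |∇u|² - V(u, x)`. -/
noncomputable def Action {n : ℕ} (V : ℝ → (Fin n → ℝ) → ℝ) (Ω : Set (Fin n → ℝ))
    (u : (Fin n → ℝ) → ℝ) : ℝ :=
  ∫ x in Ω, ((1 / 2 : ℝ) * ∑ i : Fin n, (fderiv ℝ u x (Pi.single i (1 : ℝ))) ^ 2 - V (u x) x)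

/-- `u` is a (smooth) minimal solution: no smooth variation with compact support in a bounded
open set `Ω` lowers the action. -/
def Minimal {n : ℕ} (V : ℝ → (Fin n → ℝ) → ℝ) (u : (Fin n → ℝ) → ℝ) : Prop :=
  ContDiff ℝ ∞ u ∧ ∀ Ω : Set (Fin n → ℝ), IsOpen Ω → Bornology.IsBounded Ω →
    ∀ φ : (Fin n → ℝ) → ℝ, ContDiff ℝ ∞ φ → HasCompactSupport φ → tsupport φ ⊆ Ω →
      Action V Ω u ≤ Action V Ω (fun x => u x + φ x)

/-- `F` is a minimal foliation of slope `α`: minimal solutions at bounded distance from `α · x`,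
invariant under `u(x) ↦ u(x + k) + l`, with one and only one graph through each point. -/
structure MinFol {n : ℕ} (V : ℝ → (Fin n → ℝ) → ℝ) (α : Fin n → ℝ)
    (F : Set ((Fin n → ℝ) → ℝ)) : Prop where
  minimal : ∀ u ∈ F, Minimal V u
  slope : ∀ u ∈ F, ∃ C : ℝ, ∀ x, |u x - ∑ i, α i * x i| ≤ C
  shift : ∀ u ∈ F, ∀ (k : Fin n → ℤ) (l : ℤ), (fun x => u (x + fun i => (k i : ℝ)) + (l : ℝ)) ∈ F
  cover : ∀ (x : Fin n → ℝ) (y : ℝ), ∃! u, u ∈ F ∧ u x = y

/-- The potential `V(u, x) = f (m u - k · x) + h(x)`. -/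
noncomputable def wavePot {n : ℕ} (f : ℝ → ℝ) (h : (Fin n → ℝ) → ℝ) (m : ℤ) (k : Fin n → ℤ) :
    ℝ → (Fin n → ℝ) → ℝ :=
  fun u x => f (m * u - ∑ i, (k i : ℝ) * x i) + h x

end Pool.Agent.helper94.MF
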