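import Pool.Agent.helper94.MF.Ode
import Pool.Agent.helper94.MF.Defs

/-!
# Minimal foliations of every slope for the potentials `f (u) + h (x)`
-/

set_option autoImplicit false

open MeasureTheory Set Filter Topology
open scoped ContDiff NNReal

namespace Pool.Agent.helper94.MF

/-- Calibration: solutions of `W' = g (W)` give minimal solutions `W (e · x)`. -/
lemma minimal_of_field {n : ℕ} {f : ℝ → ℝ} (hf : Continuous f) {h : (Fin n → ℝ) → ℝ}
    (hh : Continuous h) {G0 : ℝ → ℝ} (hg : Continuous G0) {E : ℝ}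
    (hE : ∀ s, G0 s ^ 2 = 2 * (E - f s)) {e : Fin n → ℝ} (he : ∑ i, e i ^ 2 = 1)
    {W : ℝ → ℝ} (hW : ContDiff ℝ ∞ W) (hW' : ∀ t, HasDerivAt W (G0 (W t)) t)
    {φ : (Fin n → ℝ) → ℝ} (hφ : ContDiff ℝ ∞ φ) (hφc : HasCompactSupport φ)
    {Ω : Set (Fin n → ℝ)} (hb : Bornology.IsBounded Ω) (hR : tsupport φ ⊆ Ω) :
    Action (fun u x => f u + h x) Ω (fun x : Fin n → ℝ => W (∑ i, e i * x i)) ≤
      Action (fun u x => f u + h x) Ω (fun x : Fin n → ℝ => W (∑ i, e i * x i) + φ x) := by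
  classical
  set ℓ : (Fin n → ℝ) →L[ℝ] ℝ := ∑ i, e i • ContinuousLinearMap.proj i with hℓ
  have hℓx : ∀ x, ℓ x = ∑ i, e i * x i := by
    intro x
    simp [hℓ]
  set u : (Fin n → ℝ) → ℝ := fun x => W (∑ i, e i * x i) with hu
  have huℓ : u = fun x => W (ℓ x) := by
    funext x; rw [hu, hℓx]
  have hus : ContDiff ℝ ∞ u := by
    rw [huℓ]; exact hW.comp ℓ.contDiff
  have hue : (fun x : Fin n → ℝ => W (∑ i, e i * x i) + φ x) = fun y => u y + φ y := rfl
  rw [hue]
  set w : (Fin n → ℝ) → ℝ := fun y => u y + φ y with hw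
  have hws : ContDiff ℝ ∞ w := hus.add hφ
  have hud : ∀ x, HasFDerivAt u (G0 (u x) • ℓ) x := by
    intro x
    rw [huℓ]
    exact (hW' (ℓ x)).comp_hasFDerivAt x ℓ.hasFDerivAt
  have hwd : ∀ x, HasFDerivAt w (fderiv ℝ w x) x := fun x =>
    ((hws.differentiable (by simp)) x).hasFDerivAt
  set G : ℝ → ℝ := fun s => ∫ r in (0 : ℝ)..s, G0 r with hG
  have hGd : ∀ s, HasDerivAt G (G0 s) s := fun s =>
    intervalIntegral.integral_hasDerivAt_right (hg.intervalIntegrable _ _)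
      hg.stronglyMeasurable.stronglyMeasurableAtFilter hg.continuousAt
  set H : (Fin n → ℝ) → ℝ := fun x => G (w x) - G (u x) with hH
  have hHd : ∀ x, HasFDerivAt H (G0 (w x) • fderiv ℝ w x - G0 (u x) • (G0 (u x) • ℓ)) x := by
    intro x
    exact ((hGd (w x)).comp_hasFDerivAt x (hwd x)).sub ((hGd (u x)).comp_hasFDerivAt x (hud x))
  have hHd' : ∀ x, fderiv ℝ H x = G0 (w x) • fderiv ℝ w x - G0 (u x) • (G0 (u x) • ℓ) :=
    fun x => (hHd x).fderiv
  have hHsupp : Function.support H ⊆ tsupport φ := by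
    intro x hx
    by_contra h
    apply hx
    have : φ x = 0 := image_eq_zero_of_notMem_tsupport h
    simp [hH, hw, this]
  have hHc : HasCompactSupport H :=
    HasCompactSupport.of_support_subset_isCompact hφc hHsupp
  have hHt : tsupport H ⊆ tsupport φ := closure_minimal hHsupp (isClosed_tsupport φ)
  have hHcont : Continuous H := continuous_iff_continuousAt.2 fun x => (hHd x).continuousAt
  have hfw : Continuous (fderiv ℝ w) := hws.continuous_fderiv (by simp)
  have hHdc : Continuous (fun x => fderiv ℝ H x e) := by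
    have : (fun x => fderiv ℝ H x e) = fun x => G0 (w x) * fderiv ℝ w x e -
        G0 (u x) * (G0 (u x) * ℓ e) := by
      funext x; rw [hHd']; simp
    rw [this]
    have h1 : Continuous (fun x => fderiv ℝ w x e) := hfw.clm_apply continuous_const
    have h2 := hws.continuous
    have h3 := hus.continuous
    fun_prop
  have hHds : HasCompactSupport (fun x => fderiv ℝ H x e) :=
    (hHc.fderiv (𝕜 := ℝ)).comp_left (g := fun L : (Fin n → ℝ) →L[ℝ] ℝ => L e) (by simp)
  have hint0 : ∫ x, fderiv ℝ H x e = 0 := by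
    have := integral_mul_fderiv_eq_neg_fderiv_mul_of_integrable (μ := (volume : Measure (Fin n → ℝ)))
      (f := fun _ : Fin n → ℝ => (1 : ℝ)) (g := H) (v := e)
      (by simp) (by simpa using hHdc.integrable_of_hasCompactSupport hHds)
      (by simpa using hHcont.integrable_of_hasCompactSupport hHc)
      (fun x _ => differentiableAt_const _) (fun x _ => (hHd x).differentiableAt)
    simpa using this
  have hint1 : ∫ x in Ω, fderiv ℝ H x e = 0 := by
    rw [← hint0]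
    refine setIntegral_eq_integral_of_forall_compl_eq_zero fun x hx => ?_
    have hx' : x ∉ tsupport H := fun h => hx (hR (hHt h))
    have : x ∉ tsupport (fderiv ℝ H) := fun h => hx' (tsupport_fderiv_subset ℝ h)
    rw [image_eq_zero_of_notMem_tsupport this]
    rfl
  obtain ⟨R, hRb⟩ := hb.subset_closedBall (0 : Fin n → ℝ)
  have hball : ∀ f : (Fin n → ℝ) → ℝ, Continuous f → IntegrableOn f Ω := fun f hf =>
    (hf.continuousOn.integrableOn_compact (isCompact_closedBall (0 : Fin n → ℝ) R)).mono_set hRb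
  have hLu : Continuous (fun x => (1 / 2 : ℝ) * ∑ i : Fin n,
      (fderiv ℝ u x (Pi.single i (1 : ℝ))) ^ 2 - (f (u x) + h x)) := by
    have h1 : Continuous (fderiv ℝ u) := hus.continuous_fderiv (by simp)
    have h3 := hus.continuous
    fun_prop
  have hLw : Continuous (fun x => (1 / 2 : ℝ) * ∑ i : Fin n,
      (fderiv ℝ w x (Pi.single i (1 : ℝ))) ^ 2 - (f (w x) + h x)) := by
    have h3 := hws.continuous
    fun_prop
  have key : ∀ x, fderiv ℝ H x e ≤ ((1 / 2 : ℝ) * ∑ i : Fin n,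
      (fderiv ℝ w x (Pi.single i (1 : ℝ))) ^ 2 - (f (w x) + h x)) - ((1 / 2 : ℝ) * ∑ i : Fin n,
      (fderiv ℝ u x (Pi.single i (1 : ℝ))) ^ 2 - (f (u x) + h x)) := by
    intro x
    have e1 : ℓ e = 1 := by rw [hℓx]; simpa [sq] using he
    have e2 : ∀ i, fderiv ℝ u x (Pi.single i (1 : ℝ)) = G0 (u x) * e i := by
      intro i
      rw [(hud x).fderiv]
      simp [hℓ, Pi.single_apply]
    have e3 : fderiv ℝ w x e = ∑ i, e i * fderiv ℝ w x (Pi.single i (1 : ℝ)) := by
      conv_lhs => rw [← Finset.univ_sum_single e, map_sum]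
      refine Finset.sum_congr rfl fun i _ => ?_
      have : (Pi.single i (e i) : Fin n → ℝ) = e i • Pi.single i (1 : ℝ) := by
        rw [← Pi.single_smul]; simp
      rw [this, map_smul, smul_eq_mul]
    have e4 : fderiv ℝ H x e = G0 (w x) * (∑ i, e i * fderiv ℝ w x (Pi.single i (1 : ℝ))) -
        G0 (u x) ^ 2 := by
      rw [hHd']
      simp [e1, e3, sq]
    rw [e4]
    have e5 : ∑ i, (fderiv ℝ u x (Pi.single i (1 : ℝ))) ^ 2 = G0 (u x) ^ 2 := by
      simp_rw [e2, mul_pow]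
      rw [← Finset.mul_sum, he, mul_one]
    rw [e5]
    have e6 : 0 ≤ ∑ i, (fderiv ℝ w x (Pi.single i (1 : ℝ)) - G0 (w x) * e i) ^ 2 :=
      Finset.sum_nonneg fun i _ => sq_nonneg _
    have e7 : ∑ i, (fderiv ℝ w x (Pi.single i (1 : ℝ)) - G0 (w x) * e i) ^ 2 =
        ∑ i, (fderiv ℝ w x (Pi.single i (1 : ℝ))) ^ 2 -
        2 * G0 (w x) * (∑ i, e i * fderiv ℝ w x (Pi.single i (1 : ℝ))) +
        G0 (w x) ^ 2 * ∑ i, e i ^ 2 := by
      rw [Finset.mul_sum, Finset.mul_sum, ← Finset.sum_sub_distrib, ← Finset.sum_add_distrib]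
      refine Finset.sum_congr rfl fun i _ => ?_
      ring
    rw [he] at e7
    have e8 := hE (u x)
    have e9 := hE (w x)
    nlinarith
  have hfin : 0 ≤ ∫ x in Ω, (((1 / 2 : ℝ) * ∑ i : Fin n,
      (fderiv ℝ w x (Pi.single i (1 : ℝ))) ^ 2 - (f (w x) + h x)) - ((1 / 2 : ℝ) * ∑ i : Fin n,
      (fderiv ℝ u x (Pi.single i (1 : ℝ))) ^ 2 - (f (u x) + h x))) := by
    rw [← hint1]
    exact setIntegral_mono (hball _ hHdc) (hball _ (hLw.sub hLu)) key
  rw [integral_sub (hball _ hLw) (hball _ hLu)] at hfin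
  unfold Action
  linarith

/-- The energy for a positive slope. -/
lemma exists_energy {F : ℝ → ℝ} (hF : ContDiff ℝ ∞ F) (hper : ∀ u, F (u + 1) = F u)
    (h0 : ∀ u, 0 ≤ F u) {p : ℝ} (hp : F p = 0) {s : ℝ} (hs : 0 < s) :
    ∃ δ : ℝ, 0 < δ ∧ ∫ v in (0 : ℝ)..1, (√(δ ^ 2 + F v))⁻¹ = s⁻¹ := by
  obtain ⟨K, hK⟩ := sqrt_lip hF hper h0
  set L : ℝ := (K : ℝ) + 1 with hL
  have hL1 : 1 ≤ L := by
    have := K.coe_nonneg
    linarith
  have hL0 : 0 < L := by linarith
  have gpos : ∀ {δ : ℝ}, 0 < δ → ∀ v, 0 < √(δ ^ 2 + F v) := by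
    intro δ hδ v
    have := h0 v
    exact Real.sqrt_pos.2 (by positivity)
  have gc : ∀ {δ : ℝ}, 0 < δ → Continuous (fun v => (√(δ ^ 2 + F v))⁻¹) := by
    intro δ hδ
    refine Continuous.inv₀ ?_ fun v => (gpos hδ v).ne'
    have := hF.continuous
    fun_prop
  have hup : ∀ {δ : ℝ}, 0 < δ → ∫ v in (0 : ℝ)..1, (√(δ ^ 2 + F v))⁻¹ ≤ δ⁻¹ := by
    intro δ hδ
    have h : ∫ v in (0 : ℝ)..1, (√(δ ^ 2 + F v))⁻¹ ≤ ∫ v in (0 : ℝ)..1, δ⁻¹ := by
      refine intervalIntegral.integral_mono_on zero_le_one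
        ((gc hδ).intervalIntegrable _ _) intervalIntegrable_const fun v _ => ?_
      refine inv_anti₀ hδ (Real.le_sqrt_of_sq_le ?_)
      linarith [h0 v]
    simpa using h
  have hlo : ∀ {δ : ℝ}, 0 < δ →
      Real.log (δ⁻¹) / L ≤ ∫ v in (0 : ℝ)..1, (√(δ ^ 2 + F v))⁻¹ := by
    intro δ hδ
    have hsh : ∫ v in (0 : ℝ)..1, (√(δ ^ 2 + F v))⁻¹ =
        ∫ v in (0 : ℝ)..1, (√(δ ^ 2 + F (v + p)))⁻¹ := by
      have hP : Function.Periodic (fun v => (√(δ ^ 2 + F v))⁻¹) 1 := by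
        intro v
        simp only [hper]
      have h1 := hP.intervalIntegral_add_eq 0 p
      rw [zero_add] at h1
      rw [h1]
      have h2 := intervalIntegral.integral_comp_add_right (a := 0) (b := 1)
        (fun v => (√(δ ^ 2 + F v))⁻¹) p
      rw [h2, zero_add, add_comm 1 p]
    rw [hsh]
    have hb : ∀ v ∈ Set.uIcc (0 : ℝ) 1, 0 < δ + L * v := by
      intro v hv
      rw [Set.uIcc_of_le zero_le_one] at hv
      have := hv.1
      positivity
    have hgle : ∀ v, 0 ≤ v → √(δ ^ 2 + F (v + p)) ≤ δ + L * v := by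
      intro v hv
      have h1 : √(F (v + p)) ≤ L * v := by
        have h2 := hK.dist_le_mul (v + p) p
        rw [Real.dist_eq, Real.dist_eq, hp, Real.sqrt_zero, sub_zero, add_sub_cancel_right,
          abs_of_nonneg (Real.sqrt_nonneg _), abs_of_nonneg hv] at h2
        refine h2.trans (mul_le_mul_of_nonneg_right ?_ hv)
        linarith
      have h3 : F (v + p) ≤ (L * v) ^ 2 := by
        have h4 := Real.sq_sqrt (h0 (v + p))
        have h5 := Real.sqrt_nonneg (F (v + p))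
        nlinarith
      rw [Real.sqrt_le_left (by positivity)]
      have h6 : 0 ≤ δ * (L * v) := by positivity
      nlinarith
    have hgc : Continuous (fun v => (√(δ ^ 2 + F (v + p)))⁻¹) :=
      (gc hδ).comp (continuous_id.add continuous_const)
    have h : ∫ v in (0 : ℝ)..1, (δ + L * v)⁻¹ ≤ ∫ v in (0 : ℝ)..1, (√(δ ^ 2 + F (v + p)))⁻¹ := by
      refine intervalIntegral.integral_mono_on zero_le_one ?_
        (hgc.intervalIntegrable _ _) fun v hv => ?_
      · refine ContinuousOn.intervalIntegrable ?_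
        exact ContinuousOn.inv₀ (by fun_prop) fun v hv => (hb v hv).ne'
      · exact inv_anti₀ (gpos hδ _) (hgle v hv.1)
    have h1 : ∫ v in (0 : ℝ)..1, (δ + L * v)⁻¹ =
        Real.log (δ + L * 1) / L - Real.log (δ + L * 0) / L := by
      refine intervalIntegral.integral_eq_sub_of_hasDerivAt
        (f := fun v => Real.log (δ + L * v) / L) (fun v hv => ?_) ?_
      · have h2 : HasDerivAt (fun v : ℝ => δ + L * v) L v := by
          have := ((hasDerivAt_id' v).const_mul L).const_add δ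
          simpa using this
        have h3 := (h2.log (hb v hv).ne').div_const L
        refine h3.congr_deriv ?_
        have := (hb v hv).ne'
        field_simp
      · refine ContinuousOn.intervalIntegrable ?_
        exact ContinuousOn.inv₀ (by fun_prop) fun v hv => (hb v hv).ne'
    rw [h1] at h
    refine le_trans ?_ h
    rw [← sub_div]
    refine div_le_div_of_nonneg_right ?_ hL0.le
    rw [mul_zero, add_zero, Real.log_inv, mul_one]
    have h4 : (0 : ℝ) ≤ Real.log (δ + L) := Real.log_nonneg (by linarith)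
    linarith
  have hcont : Continuous fun l : ℝ => ∫ v in (0 : ℝ)..1, (√((Real.exp l) ^ 2 + F v))⁻¹ := by
    refine intervalIntegral.continuous_parametric_intervalIntegral_of_continuous' ?_ 0 1
    have : Continuous fun q : ℝ × ℝ => (√((Real.exp q.1) ^ 2 + F q.2))⁻¹ := by
      refine Continuous.inv₀ ?_ fun q => (gpos (Real.exp_pos _) _).ne'
      have := hF.continuous
      fun_prop
    exact this
  have h1 : ∫ v in (0 : ℝ)..1, (√((Real.exp (Real.log s)) ^ 2 + F v))⁻¹ ≤ s⁻¹ := by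
    rw [Real.exp_log hs]
    exact hup hs
  have h2 : s⁻¹ ≤ ∫ v in (0 : ℝ)..1, (√((Real.exp (-(L * s⁻¹))) ^ 2 + F v))⁻¹ := by
    refine le_trans (le_of_eq ?_) (hlo (Real.exp_pos _))
    rw [Real.log_inv, Real.log_exp]
    field_simp
  obtain ⟨l, hl⟩ := mem_range_of_exists_le_of_exists_ge hcont ⟨_, h1⟩ ⟨_, h2⟩
  exact ⟨Real.exp l, Real.exp_pos l, hl⟩

/-- The slope field for the modulus `s` of the slope. -/
lemma exists_field {f : ℝ → ℝ} (hf : ContDiff ℝ ∞ f) (hper : ∀ u, f (u + 1) = f u) {s : ℝ}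
    (hs : 0 ≤ s) : ∃ (g : ℝ → ℝ) (K : ℝ≥0) (E : ℝ), LipschitzWith K g ∧
      (∀ u, g (u + 1) = g u) ∧ (∀ u, g u ^ 2 = 2 * (E - f u)) ∧
      (∀ u, g u ≠ 0 → ContDiffAt ℝ ∞ g u) ∧
      (∀ W : ℝ → ℝ, (∀ t, HasDerivAt W (g (W t)) t) → ∃ C, ∀ t, |W t - s * t| ≤ C) ∧
      (s ≠ 0 → ContDiff ℝ ∞ g ∧ ∀ W : ℝ → ℝ, (∀ t, HasDerivAt W (g (W t)) t) →
        ∀ (N : ℤ) (t : ℝ), W (t + N * s⁻¹) = W t + N) ∧
      (∀ (q : ℝ → ℝ) (M : ℝ), (∀ u, 0 ≤ q u) → (∃ u, q u = 0) → (∀ u, f u = M - q u ^ 2 / 2) →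
        s = 0 → g = q) := by
  -- the maximum
  obtain ⟨p, -, hp⟩ := isCompact_Icc.exists_isMaxOn (s := Icc (0 : ℝ) 1)
    ⟨0, left_mem_Icc.2 zero_le_one⟩ hf.continuous.continuousOn
  have hM : ∀ u, f u ≤ f p := by
    intro u
    have hP : Function.Periodic f 1 := hper
    have h1 : f u = f (Int.fract u) := by
      have h2 := hP.sub_int_mul_eq (x := u) ⌊u⌋
      rw [mul_one, Int.self_sub_floor] at h2
      exact h2.symm
    rw [h1]
    exact hp ⟨Int.fract_nonneg u, (Int.fract_lt_one u).le⟩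
  set F : ℝ → ℝ := fun u => 2 * (f p - f u) with hFdef
  have hF : ContDiff ℝ ∞ F := by
    rw [hFdef]
    fun_prop
  have hFper : ∀ u, F (u + 1) = F u := by
    intro u
    simp only [hFdef, hper]
  have hF0 : ∀ u, 0 ≤ F u := by
    intro u
    have := hM u
    simp only [hFdef]
    linarith
  have hFp : F p = 0 := by simp [hFdef]
  -- the general properties
  have gen : ∀ δ : ℝ, ∃ K : ℝ≥0, LipschitzWith K (fun u => √(δ ^ 2 + F u)) := by
    intro δ
    refine sqrt_lip (F := fun u => δ ^ 2 + F u) (by fun_prop) (fun u => by simp only [hFper])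
      fun u => ?_
    have := hF0 u
    positivity
  have genper : ∀ δ u : ℝ, √(δ ^ 2 + F (u + 1)) = √(δ ^ 2 + F u) := by
    intro δ u
    rw [hFper]
  have gensq : ∀ δ u : ℝ, √(δ ^ 2 + F u) ^ 2 = 2 * ((f p + δ ^ 2 / 2) - f u) := by
    intro δ u
    have := hF0 u
    rw [Real.sq_sqrt (by positivity)]
    simp only [hFdef]
    ring
  have gensm : ∀ δ u : ℝ, √(δ ^ 2 + F u) ≠ 0 → ContDiffAt ℝ ∞ (fun u => √(δ ^ 2 + F u)) u := by
    intro δ u hu
    refine ContDiffAt.sqrt ?_ ?_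
    · exact ContDiff.contDiffAt (by fun_prop)
    · intro h1
      apply hu
      rw [h1, Real.sqrt_zero]
  rcases hs.eq_or_lt with rfl | hs
  · obtain ⟨K, hK⟩ := gen 0
    refine ⟨fun u => √(0 ^ 2 + F u), K, f p + 0 ^ 2 / 2, hK, genper 0, gensq 0, gensm 0, ?_,
      fun h => absurd rfl h, ?_⟩
    · intro W hW
      obtain ⟨C, hC⟩ := bdd_zero hK (genper 0) (p := p) (by simp [hFp]) hW
      exact ⟨C, fun t => by simpa using hC t⟩
    · intro q M hq0 hqz hq _
      obtain ⟨z, hz⟩ := hqz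
      have h1 : f z = M := by
        rw [hq z, hz]
        ring
      have h2 : f p ≤ M := by
        rw [hq p]
        have := sq_nonneg (q p)
        linarith
      have h3 : M = f p := le_antisymm (h1 ▸ hM z) h2
      funext u
      have h4 : (0 : ℝ) ^ 2 + F u = q u ^ 2 := by
        simp only [hFdef]
        rw [hq u, h3]
        ring
      show √(0 ^ 2 + F u) = q u
      rw [h4, Real.sqrt_sq (hq0 u)]
  · obtain ⟨δ, hδ, hT⟩ := exists_energy hF hFper hF0 hFp hs
    obtain ⟨K, hK⟩ := gen δ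
    have hpos : ∀ u, 0 < √(δ ^ 2 + F u) := by
      intro u
      have := hF0 u
      exact Real.sqrt_pos.2 (by positivity)
    refine ⟨fun u => √(δ ^ 2 + F u), K, f p + δ ^ 2 / 2, hK, genper δ, gensq δ, gensm δ, ?_,
      fun _ => ⟨contDiff_iff_contDiffAt.2 fun u => gensm δ u (hpos u).ne', ?_⟩,
      fun _ _ _ _ _ h => absurd h hs.ne'⟩
    · intro W hW
      have h1 := (bdd_pos hK.continuous (genper δ) hpos hW).1
      rw [hT, inv_inv] at h1
      exact h1
    · intro W hW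
      have h1 := (bdd_pos hK.continuous (genper δ) hpos hW).2
      rw [hT] at h1
      exact h1

/-- The main theorem. -/
theorem exists_minFol {n : ℕ} (hn : 1 ≤ n) {f : ℝ → ℝ} {h : (Fin n → ℝ) → ℝ}
    (hf : ContDiff ℝ ∞ f) (hper : ∀ u, f (u + 1) = f u) (hh : Continuous h) (α : Fin n → ℝ) :
    ∃ (F : Set ((Fin n → ℝ) → ℝ)) (p : ℝ → Fin n → ℝ), MinFol (fun u x => f u + h x) α F ∧
      (∀ u ∈ F, ∀ x i, fderiv ℝ u x (Pi.single i (1 : ℝ)) = p (u x) i) ∧
      (∀ u, p (u + 1) = p u) ∧ (∃ K : ℝ≥0, LipschitzWith K p) ∧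
      ((α ≠ 0 ∨ ∃ (q : ℝ → ℝ) (M : ℝ), ContDiff ℝ ∞ q ∧ (∀ u, 0 ≤ q u) ∧ (∃ u, q u = 0) ∧
        ∀ u, f u = M - q u ^ 2 / 2) → ContDiff ℝ ∞ p) ∧
      (α ≠ 0 → ∀ u ∈ F, ∀ (j : Fin n → ℤ) (N : ℤ), ∑ i, α i * j i = N →
        ∀ x, u (x + fun i => (j i : ℝ)) = u x + N) := by
  classical
  obtain ⟨s, e, hs, he, hα⟩ : ∃ (s : ℝ) (e : Fin n → ℝ), 0 ≤ s ∧ ∑ i, e i ^ 2 = 1 ∧
      ∀ i, α i = s * e i := by
    by_cases h : ∑ i, α i ^ 2 = 0
    · refine ⟨0, Pi.single ⟨0, hn⟩ 1, le_rfl, ?_, ?_⟩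
      · rw [Finset.sum_eq_single ⟨0, hn⟩]
        · simp
        · intro b _ hb
          simp [Pi.single_eq_of_ne hb]
        · intro h; exact absurd (Finset.mem_univ _) h
      · intro i
        have := (Finset.sum_eq_zero_iff_of_nonneg (fun i _ => sq_nonneg (α i))).1 h i
          (Finset.mem_univ i)
        rw [zero_mul]
        exact pow_eq_zero_iff (two_ne_zero) |>.1 this
    · have hpos : 0 < ∑ i, α i ^ 2 :=
        lt_of_le_of_ne (Finset.sum_nonneg fun i _ => sq_nonneg _) (Ne.symm h)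
      refine ⟨√(∑ i, α i ^ 2), fun i => α i / √(∑ i, α i ^ 2), Real.sqrt_nonneg _, ?_, ?_⟩
      · simp_rw [div_pow]
        rw [← Finset.sum_div, Real.sq_sqrt hpos.le, div_self h]
      · intro i
        have : √(∑ i, α i ^ 2) ≠ 0 := (Real.sqrt_pos.2 hpos).ne'
        field_simp
  obtain ⟨g, K, E, hK, hgper, hgsq, hgsm, hgb, hgs, hgq⟩ := exists_field hf hper hs
  have hlin : ∀ x : Fin n → ℝ, ∑ i, α i * x i = s * ∑ i, e i * x i := by
    intro x
    rw [Finset.mul_sum]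
    refine Finset.sum_congr rfl fun i _ => ?_
    rw [hα i]; ring
  have hgbd : ∃ C, ∀ u, |g u| ≤ C := by
    obtain ⟨C, -, hC⟩ := bdd_of_per hK.continuous hgper
    exact ⟨C, hC⟩
  obtain ⟨C, hC⟩ := hgbd
  have hsm : ∀ W : ℝ → ℝ, (∀ t, HasDerivAt W (g (W t)) t) → ContDiff ℝ ∞ W := fun W hW =>
    smooth_of hK hgsm hW
  have hP : Function.Periodic g 1 := hgper
  have hgz : ∀ (u : ℝ) (l : ℤ), g (u + l) = g u := by
    intro u l
    have := (hP.int_mul l) u
    rwa [mul_one] at this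
  have hsh : ∀ W : ℝ → ℝ, (∀ t, HasDerivAt W (g (W t)) t) → ∀ (a : ℝ) (l : ℤ), ∀ t,
      HasDerivAt (fun t => W (t + a) + (l : ℝ)) (g (W (t + a) + l)) t := by
    intro W hW a l t
    rw [hgz]
    exact ((hW (t + a)).comp_add_const t a).add_const _
  set ℓ : (Fin n → ℝ) →L[ℝ] ℝ := ∑ i, e i • ContinuousLinearMap.proj i with hℓ
  have hℓx : ∀ x, ℓ x = ∑ i, e i * x i := by
    intro x
    simp [hℓ]
  refine ⟨{u | ∃ W : ℝ → ℝ, (∀ t, HasDerivAt W (g (W t)) t) ∧ u = fun x => W (∑ i, e i * x i)},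
    fun u i => g u * e i, ⟨?_, ?_, ?_, ?_⟩, ?_, ?_, ?_, ?_, ?_⟩
  · rintro u ⟨W, hW, rfl⟩
    refine ⟨(hsm W hW).comp (by fun_prop), ?_⟩
    intro Ω hΩ hb φ hφ hφc hR
    exact minimal_of_field hf.continuous hh hK.continuous hgsq he (hsm W hW) hW hφ hφc hb hR
  · rintro u ⟨W, hW, rfl⟩
    obtain ⟨C', hC'⟩ := hgb W hW
    refine ⟨C', fun x => ?_⟩
    rw [hlin]
    exact hC' _
  · rintro u ⟨W, hW, rfl⟩ k l
    refine ⟨fun t => W (t + ∑ i, e i * k i) + l, hsh W hW _ l, ?_⟩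
    funext x
    simp only [Pi.add_apply, mul_add, Finset.sum_add_distrib]
  · intro x y
    obtain ⟨Z, hZ0, hZ⟩ := ode_exists hK hC y
    refine ⟨fun x' => Z (∑ i, e i * x' i + -(∑ i, e i * x i)), ⟨⟨fun t =>
      Z (t + -(∑ i, e i * x i)), fun t => ?_, rfl⟩, ?_⟩, ?_⟩
    · exact (hZ _).comp_add_const t _
    · simp only [add_neg_cancel, hZ0]
    · rintro u ⟨⟨W, hW, rfl⟩, hy⟩
      have h1 : W = fun t => Z (t + -(∑ i, e i * x i)) := by
        refine ode_unique hK hW (fun t => (hZ _).comp_add_const t _)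
          (t₀ := ∑ i, e i * x i) ?_
        simp only [add_neg_cancel, hZ0]
        exact hy
      rw [h1]
  · rintro u ⟨W, hW, rfl⟩ x i
    have huℓ : (fun x : Fin n → ℝ => W (∑ i, e i * x i)) = fun x => W (ℓ x) := by
      funext x; rw [hℓx]
    have hd : HasFDerivAt (fun x : Fin n → ℝ => W (∑ i, e i * x i)) (g (W (ℓ x)) • ℓ) x := by
      rw [huℓ]
      exact (hW (ℓ x)).comp_hasFDerivAt x ℓ.hasFDerivAt
    rw [hd.fderiv, hℓx x]
    simp [hℓ, Pi.single_apply]
  · intro u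
    simp only [hgper]
  · refine ⟨K * ‖e‖₊, LipschitzWith.of_dist_le_mul fun a b => ?_⟩
    refine (dist_pi_le_iff (by positivity)).2 fun i => ?_
    have h1 := hK.dist_le_mul a b
    rw [Real.dist_eq] at h1 ⊢
    rw [← sub_mul, abs_mul]
    have h2 : |e i| ≤ ‖e‖ := by
      have := norm_le_pi_norm e i
      rwa [Real.norm_eq_abs] at this
    calc |g a - g b| * |e i| ≤ (K * dist a b) * ‖e‖ :=
          mul_le_mul h1 h2 (abs_nonneg _) (by positivity)
      _ = ((K * ‖e‖₊ : ℝ≥0) : ℝ) * dist a b := by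
          rw [NNReal.coe_mul, coe_nnnorm]
          ring
  · intro hcase
    have hg : ContDiff ℝ ∞ g := by
      by_cases hs0 : s = 0
      · rcases hcase with hα0 | ⟨q, M, hqs, hq0, hqz, hq⟩
        · exfalso
          apply hα0
          funext i
          rw [hα i, hs0, zero_mul]
          rfl
        · rw [hgq q M hq0 hqz hq hs0]
          exact hqs
      · exact (hgs hs0).1
    refine contDiff_pi.2 fun i => ?_
    exact hg.mul contDiff_const
  · rintro hα0 u ⟨W, hW, rfl⟩ j N hN x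
    have hs0 : s ≠ 0 := by
      intro hs0
      apply hα0
      funext i
      rw [hα i, hs0, zero_mul]
      rfl
    have h1 := (hgs hs0).2 W hW N (∑ i, e i * x i)
    have h2 : ∑ i, e i * (x + fun i => (j i : ℝ)) i = ∑ i, e i * x i + N * s⁻¹ := by
      rw [hlin] at hN
      rw [← hN]
      simp only [Pi.add_apply, mul_add, Finset.sum_add_distrib]
      field_simp
    show W (∑ i, e i * (x + fun i => (j i : ℝ)) i) = W (∑ i, e i * x i) + N
    rw [h2, h1]

end Pool.Agent.helper94.MF
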