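import Mathlib

/-!
# Solutions of `W' = √(2 (E - f (W)))` for a smooth 1-periodic `f` and `E ≥ max f`
-/

set_option autoImplicit false

open MeasureTheory Set Filter Topology
open scoped ContDiff NNReal

namespace Pool.Agent.helper94.MF

/-- A continuous function of period `1` is bounded. -/
lemma bdd_of_per {F : ℝ → ℝ} (hF : Continuous F) (hp : ∀ u, F (u + 1) = F u) :
    ∃ K, 0 < K ∧ ∀ u, |F u| ≤ K := by
  obtain ⟨K, hK⟩ := isCompact_Icc.exists_bound_of_continuousOn (s := Icc (0 : ℝ) 1)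
    hF.continuousOn
  refine ⟨|K| + 1, by positivity, fun u => ?_⟩
  have hper : Function.Periodic F 1 := hp
  have h1 : F u = F (Int.fract u) := by
    have h2 := hper.sub_int_mul_eq (x := u) ⌊u⌋
    rw [mul_one, Int.self_sub_floor] at h2
    exact h2.symm
  rw [h1]
  have h3 := hK (Int.fract u) ⟨Int.fract_nonneg u, (Int.fract_lt_one u).le⟩
  rw [Real.norm_eq_abs] at h3
  linarith [le_abs_self K]

lemma deriv_per {F : ℝ → ℝ} (hp : ∀ u, F (u + 1) = F u) (u : ℝ) :
    deriv F (u + 1) = deriv F u := by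
  have h : (fun v => F (v + 1)) = F := funext hp
  have h1 := deriv_comp_add_const F 1 u
  rw [← h1]
  rw [h]

/-- The second order upper bound. -/
lemma taylor_le {F : ℝ → ℝ} (hF : ContDiff ℝ ∞ F) {K : ℝ} (hK : ∀ u, |deriv (deriv F) u| ≤ K)
    (x y : ℝ) : F y ≤ F x + deriv F x * (y - x) + K / 2 * (y - x) ^ 2 := by
  have hd : ∀ u, HasDerivAt F (deriv F u) u := fun u =>
    ((hF.differentiable (by simp)) u).hasDerivAt
  have hF1 : ContDiff ℝ ∞ (deriv F) := by
    have h1 := contDiff_infty_iff_deriv.1 hF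
    exact h1.2
  have hd1 : ∀ u, HasDerivAt (deriv F) (deriv (deriv F) u) u := fun u =>
    ((hF1.differentiable (by simp)) u).hasDerivAt
  have hlip : ∀ a b, |deriv F b - deriv F a| ≤ K * |b - a| := by
    intro a b
    have h1 := Convex.norm_image_sub_le_of_norm_deriv_le (f := deriv F) (s := univ) (C := K)
      (x := a) (y := b) (fun u _ => (hd1 u).differentiableAt) (fun u _ => hK u) convex_univ
      (mem_univ _) (mem_univ _)
    simpa using h1
  have hφ : ∀ u, HasDerivAt (fun u => F x + deriv F x * (u - x) + K / 2 * (u - x) ^ 2 - F u)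
      (deriv F x + K * (u - x) - deriv F u) u := by
    intro u
    have h1 : HasDerivAt (fun u : ℝ => u - x) 1 u := (hasDerivAt_id' u).sub_const x
    have h2 := (((h1.const_mul (deriv F x)).const_add (F x)).add
      ((h1.pow 2).const_mul (K / 2))).sub (hd u)
    refine h2.congr_deriv ?_
    simp
    ring
  have hφc : Continuous (fun u => F x + deriv F x * (u - x) + K / 2 * (u - x) ^ 2 - F u) := by
    have := hF.continuous
    fun_prop
  have h0 : F x + deriv F x * (x - x) + K / 2 * (x - x) ^ 2 - F x = 0 := by ring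
  have key : 0 ≤ F x + deriv F x * (y - x) + K / 2 * (y - x) ^ 2 - F y := by
    rcases le_total x y with hxy | hxy
    · have hm : MonotoneOn (fun u => F x + deriv F x * (u - x) + K / 2 * (u - x) ^ 2 - F u)
          (Ici x) := by
        refine monotoneOn_of_deriv_nonneg (convex_Ici x) hφc.continuousOn
          (fun u _ => (hφ u).differentiableAt.differentiableWithinAt) fun u hu => ?_
        rw [interior_Ici] at hu
        rw [(hφ u).deriv]
        have h3 := hlip x u
        have hu' : 0 < u - x := sub_pos.2 hu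
        rw [abs_of_pos hu', abs_le] at h3
        linarith [h3.2]
      have h4 := hm (mem_Ici.2 le_rfl) (mem_Ici.2 hxy) hxy
      simp only [h0] at h4
      exact h4
    · have hm : AntitoneOn (fun u => F x + deriv F x * (u - x) + K / 2 * (u - x) ^ 2 - F u)
          (Iic x) := by
        refine antitoneOn_of_deriv_nonpos (convex_Iic x) hφc.continuousOn
          (fun u _ => (hφ u).differentiableAt.differentiableWithinAt) fun u hu => ?_
        rw [interior_Iic] at hu
        rw [(hφ u).deriv]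
        have h3 := hlip x u
        have hu' : u - x < 0 := sub_neg.2 hu
        rw [abs_of_neg hu', abs_le] at h3
        linarith [h3.1]
      have h4 := hm (mem_Iic.2 hxy) (mem_Iic.2 le_rfl) hxy
      simp only [h0] at h4
      exact h4
  linarith

/-- The square root of a nonnegative smooth function of period `1` is Lipschitz. -/
lemma sqrt_lip {F : ℝ → ℝ} (hF : ContDiff ℝ ∞ F) (hp : ∀ u, F (u + 1) = F u)
    (h0 : ∀ u, 0 ≤ F u) : ∃ K : ℝ≥0, LipschitzWith K (fun u => √(F u)) := by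
  have hF1 : ContDiff ℝ ∞ (deriv F) := (contDiff_infty_iff_deriv.1 hF).2
  have hF2 : ContDiff ℝ ∞ (deriv (deriv F)) := (contDiff_infty_iff_deriv.1 hF1).2
  obtain ⟨K, hK0, hK⟩ := bdd_of_per hF2.continuous (deriv_per (deriv_per hp))
  have hT := fun x y => taylor_le hF hK x y
  have hd : ∀ x, deriv F x ^ 2 ≤ 2 * K * F x := by
    intro x
    have h1 := (h0 _).trans (hT x (x - deriv F x / K))
    have h2 : x - deriv F x / K - x = -(deriv F x / K) := by ring
    rw [h2] at h1
    have h3 : F x + deriv F x * -(deriv F x / K) + K / 2 * (-(deriv F x / K)) ^ 2 =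
        F x - deriv F x ^ 2 / (2 * K) := by
      field_simp
      ring
    rw [h3] at h1
    have h4 : deriv F x ^ 2 / (2 * K) ≤ F x := by linarith
    rw [div_le_iff₀ (by positivity)] at h4
    linarith
  have hK2 : 0 < √(K / 2) := Real.sqrt_pos.2 (by positivity)
  have hle : ∀ x y, √(F y) ≤ √(F x) + √(K / 2) * |y - x| := by
    intro x y
    have h1 : 0 ≤ √(F x) + √(K / 2) * |y - x| := by positivity
    rw [Real.sqrt_le_left h1]
    refine (hT x y).trans ?_
    have h2 : deriv F x * (y - x) ≤ 2 * √(F x) * (√(K / 2) * |y - x|) := by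
      have h3 : |deriv F x| ≤ 2 * √(F x) * √(K / 2) := by
        rw [← Real.sqrt_sq_eq_abs, Real.sqrt_le_left (by positivity)]
        refine (hd x).trans (le_of_eq ?_)
        rw [mul_pow, mul_pow, Real.sq_sqrt (h0 x), Real.sq_sqrt (by positivity)]
        ring
      calc deriv F x * (y - x) ≤ |deriv F x * (y - x)| := le_abs_self _
        _ = |deriv F x| * |y - x| := abs_mul _ _
        _ ≤ (2 * √(F x) * √(K / 2)) * |y - x| :=
            mul_le_mul_of_nonneg_right h3 (abs_nonneg _)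
        _ = 2 * √(F x) * (√(K / 2) * |y - x|) := by ring
    have h4 : (√(F x) + √(K / 2) * |y - x|) ^ 2 =
        F x + 2 * √(F x) * (√(K / 2) * |y - x|) + K / 2 * (y - x) ^ 2 := by
      have h5 := Real.sq_sqrt (h0 x)
      have h6 : √(K / 2) ^ 2 = K / 2 := Real.sq_sqrt (by positivity)
      have h7 := sq_abs (y - x)
      calc (√(F x) + √(K / 2) * |y - x|) ^ 2 = √(F x) ^ 2 +
            2 * √(F x) * (√(K / 2) * |y - x|) + √(K / 2) ^ 2 * |y - x| ^ 2 := by ring
        _ = _ := by rw [h5, h6, h7]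
    rw [h4]
    linarith
  refine ⟨⟨√(K / 2), hK2.le⟩, LipschitzWith.of_dist_le_mul fun x y => ?_⟩
  rw [Real.dist_eq, Real.dist_eq, abs_le]
  have h1 := hle x y
  have h2 := hle y x
  rw [abs_sub_comm y x] at h1
  show -(√(K / 2) * |x - y|) ≤ √(F x) - √(F y) ∧ √(F x) - √(F y) ≤ √(K / 2) * |x - y|
  constructor <;> linarith

/-- Uniqueness. -/
lemma ode_unique {g : ℝ → ℝ} {K : ℝ≥0} (hg : LipschitzWith K g) {W Z : ℝ → ℝ}
    (hW : ∀ t, HasDerivAt W (g (W t)) t) (hZ : ∀ t, HasDerivAt Z (g (Z t)) t) {t₀ : ℝ}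
    (h : W t₀ = Z t₀) : W = Z :=
  ODE_solution_unique_univ (v := fun _ => g) (s := fun _ => univ) (K := K)
    (fun _ => hg.lipschitzOnWith) (fun t => ⟨hW t, mem_univ _⟩) (fun t => ⟨hZ t, mem_univ _⟩) h

/-- Global existence. -/
lemma ode_exists {g : ℝ → ℝ} {K : ℝ≥0} (hg : LipschitzWith K g) {C : ℝ} (hC : ∀ u, |g u| ≤ C)
    (y : ℝ) : ∃ W : ℝ → ℝ, W 0 = y ∧ ∀ t, HasDerivAt W (g (W t)) t := by
  have hC0 : 0 ≤ C := (abs_nonneg _).trans (hC 0)
  have hloc : ∀ N : ℕ, ∃ W : ℝ → ℝ, W 0 = y ∧ ∀ t ∈ Ioo (-((N : ℝ) + 1)) ((N : ℝ) + 1),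
      HasDerivAt W (g (W t)) t := by
    intro N
    have h0 : (0 : ℝ) ∈ Icc (-((N : ℝ) + 1)) ((N : ℝ) + 1) :=
      ⟨by linarith [Nat.cast_nonneg (α := ℝ) N], by positivity⟩
    have hP : IsPicardLindelof (fun _ : ℝ => g) (tmin := -((N : ℝ) + 1)) (tmax := (N : ℝ) + 1)
        ⟨0, h0⟩ y ⟨C * ((N : ℝ) + 1), by positivity⟩ 0 ⟨C, hC0⟩ K := by
      refine IsPicardLindelof.of_time_independent (fun x _ => ?_) hg.lipschitzOnWith ?_
      · exact hC x
      · show C * max ((N : ℝ) + 1 - 0) (0 - -((N : ℝ) + 1)) ≤ C * ((N : ℝ) + 1) - 0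
        rw [sub_zero, sub_neg_eq_add, zero_add, max_self, sub_zero]
    obtain ⟨W, hW0, hW⟩ := hP.exists_eq_forall_mem_Icc_hasDerivWithinAt₀
    exact ⟨W, hW0, fun t ht => (hW t (Ioo_subset_Icc_self ht)).hasDerivAt
      (Icc_mem_nhds ht.1 ht.2)⟩
  choose A hA0 hA using hloc
  have hagree : ∀ N M : ℕ, N ≤ M → ∀ t ∈ Ioo (-((N : ℝ) + 1)) ((N : ℝ) + 1), A N t = A M t := by
    intro N M hNM t ht
    have hNM' : (N : ℝ) ≤ M := by exact_mod_cast hNM
    have hsub : Ioo (-((N : ℝ) + 1)) ((N : ℝ) + 1) ⊆ Ioo (-((M : ℝ) + 1)) ((M : ℝ) + 1) :=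
      Ioo_subset_Ioo (by linarith) (by linarith)
    exact ODE_solution_unique_of_mem_Ioo (v := fun _ => g) (s := fun _ => univ) (K := K)
      (t₀ := 0) (fun _ _ => hg.lipschitzOnWith)
      ⟨by linarith [Nat.cast_nonneg (α := ℝ) N], by positivity⟩
      (fun s hs => ⟨hA N s hs, mem_univ _⟩) (fun s hs => ⟨hA M s (hsub hs), mem_univ _⟩)
      (by rw [hA0, hA0]) ht
  refine ⟨fun t => A ⌈|t|⌉₊ t, by simp [hA0], fun t => ?_⟩
  set N := ⌈|t|⌉₊ + 1 with hN
  have hmem : ∀ s, ⌈|s|⌉₊ ≤ N → A ⌈|s|⌉₊ s = A N s := by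
    intro s hs
    refine hagree _ _ hs s ?_
    have h1 := Nat.le_ceil |s|
    have h2 := abs_le.1 h1
    exact ⟨by linarith [h2.1], by linarith [h2.2]⟩
  have hev : (fun s => A ⌈|s|⌉₊ s) =ᶠ[𝓝 t] A N := by
    have h1 : ∀ᶠ s in 𝓝 t, |s| < |t| + 1 :=
      (continuous_abs.continuousAt).eventually_lt continuousAt_const (by linarith)
    filter_upwards [h1] with s hs
    refine hmem s ?_
    rw [Nat.ceil_le, hN]
    push_cast
    linarith [Nat.le_ceil |t|]
  have ht : t ∈ Ioo (-((N : ℝ) + 1)) ((N : ℝ) + 1) := by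
    have h1 := Nat.le_ceil |t|
    have h2 := abs_le.1 h1
    rw [hN]
    push_cast
    exact ⟨by linarith [h2.1], by linarith [h2.2]⟩
  have h3 := hA N t ht
  have h4 : A ⌈|t|⌉₊ t = A N t := hmem t (by omega)
  show HasDerivAt (fun s => A ⌈|s|⌉₊ s) (g (A ⌈|t|⌉₊ t)) t
  rw [h4]
  exact h3.congr_of_eventuallyEq hev

/-- A solution is constant or avoids the zeros of the field. -/
lemma const_or {g : ℝ → ℝ} {K : ℝ≥0} (hg : LipschitzWith K g) {W : ℝ → ℝ}
    (hW : ∀ t, HasDerivAt W (g (W t)) t) {c : ℝ} (hc : g c = 0) {t₀ : ℝ} (h : W t₀ = c) :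
    W = fun _ => c :=
  ode_unique hg hW (Z := fun _ => c) (fun t => by rw [hc]; exact hasDerivAt_const t c) h

/-- Smoothness of the solutions. -/
lemma smooth_of {g : ℝ → ℝ} {K : ℝ≥0} (hg : LipschitzWith K g)
    (hs : ∀ u, g u ≠ 0 → ContDiffAt ℝ ∞ g u) {W : ℝ → ℝ}
    (hW : ∀ t, HasDerivAt W (g (W t)) t) : ContDiff ℝ ∞ W := by
  by_cases h : ∃ t, g (W t) = 0
  · obtain ⟨t, ht⟩ := h
    rw [const_or hg hW ht (t₀ := t) rfl]
    exact contDiff_const
  · push Not at h
    have hd : deriv W = fun t => g (W t) := funext fun t => (hW t).deriv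
    have hn : ∀ n : ℕ, ContDiff ℝ n W := by
      intro n
      induction n with
      | zero =>
        rw [Nat.cast_zero, contDiff_zero]
        exact continuous_iff_continuousAt.2 fun t => (hW t).continuousAt
      | succ n ih =>
        have h1 : ContDiff ℝ n (fun t => g (W t)) := by
          refine contDiff_iff_contDiffAt.2 fun t => ?_
          exact ((hs (W t) (h t)).of_le (by exact_mod_cast le_top)).comp t ih.contDiffAt
        have h2 : ContDiff ℝ ((n : WithTop ℕ∞) + 1) W := by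
          rw [contDiff_succ_iff_deriv]
          refine ⟨fun t => (hW t).differentiableAt, ?_, ?_⟩
          · intro h3
            exact absurd h3 (by simp)
          · rw [hd]
            exact h1
        exact_mod_cast h2
    exact contDiff_infty.2 hn

/-- Solutions of a field with a zero and of period `1` are bounded. -/
lemma bdd_zero {g : ℝ → ℝ} {K : ℝ≥0} (hg : LipschitzWith K g) (hp : ∀ u, g (u + 1) = g u)
    {p : ℝ} (h0 : g p = 0) {W : ℝ → ℝ} (hW : ∀ t, HasDerivAt W (g (W t)) t) :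
    ∃ C, ∀ t, |W t| ≤ C := by
  have hper : Function.Periodic g 1 := hp
  have hz : ∀ m : ℤ, g (p + m) = 0 := by
    intro m
    have h1 := (hper.int_mul m) p
    rw [mul_one] at h1
    rw [h1, h0]
  have hc : Continuous W := continuous_iff_continuousAt.2 fun t => (hW t).continuousAt
  set m := ⌊W 0 - p⌋ with hm
  have h1 : p + m ≤ W 0 := by
    have := Int.floor_le (W 0 - p)
    linarith
  have h2 : W 0 ≤ p + (m + 1 : ℤ) := by
    have := (Int.lt_floor_add_one (W 0 - p)).le
    push_cast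
    linarith
  have h3 : ∀ t, W t ≤ p + (m + 1 : ℤ) := by
    intro t
    by_contra hlt
    push Not at hlt
    obtain ⟨s, hs⟩ := mem_range_of_exists_le_of_exists_ge hc ⟨0, h2⟩ ⟨t, hlt.le⟩
    have h4 := const_or hg hW (hz (m + 1)) hs
    rw [h4] at hlt
    exact lt_irrefl _ hlt
  have h4 : ∀ t, p + m ≤ W t := by
    intro t
    by_contra hlt
    push Not at hlt
    obtain ⟨s, hs⟩ := mem_range_of_exists_le_of_exists_ge hc ⟨t, hlt.le⟩ ⟨0, h1⟩
    have h5 := const_or hg hW (hz m) hs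
    rw [h5] at hlt
    exact lt_irrefl _ hlt
  refine ⟨|p + m| + |p + (m + 1 : ℤ)|, fun t => abs_le.2 ⟨?_, ?_⟩⟩
  · have := h4 t
    have h5 := neg_abs_le (p + m)
    have h6 := abs_nonneg (p + ((m + 1 : ℤ) : ℝ))
    linarith
  · have := h3 t
    have h5 := le_abs_self (p + ((m + 1 : ℤ) : ℝ))
    have h6 := abs_nonneg (p + (m : ℝ))
    linarith

/-- Solutions of a positive field of period `1` are at bounded distance from a linear function,
and periodic. -/
lemma bdd_pos {g : ℝ → ℝ} (hc : Continuous g) (hp : ∀ u, g (u + 1) = g u) (h0 : ∀ u, 0 < g u)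
    {W : ℝ → ℝ} (hW : ∀ t, HasDerivAt W (g (W t)) t) :
    (∃ C, ∀ t, |W t - (∫ v in (0 : ℝ)..1, (g v)⁻¹)⁻¹ * t| ≤ C) ∧
      ∀ (N : ℤ) (t : ℝ), W (t + N * ∫ v in (0 : ℝ)..1, (g v)⁻¹) = W t + N := by
  have hgi : Continuous (fun v => (g v)⁻¹) := hc.inv₀ fun v => (h0 v).ne'
  have hi : ∀ a b, IntervalIntegrable (fun v => (g v)⁻¹) volume a b := fun a b =>
    hgi.intervalIntegrable _ _
  set Θ : ℝ → ℝ := fun u => ∫ v in (0 : ℝ)..u, (g v)⁻¹ with hΘ
  have hΘd : ∀ u, HasDerivAt Θ (g u)⁻¹ u := fun u =>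
    intervalIntegral.integral_hasDerivAt_right (hi _ _)
      hgi.stronglyMeasurable.stronglyMeasurableAtFilter hgi.continuousAt
  have hmono : StrictMono Θ := strictMono_of_hasDerivAt_pos hΘd fun u => inv_pos.2 (h0 u)
  have hΘ0 : Θ 0 = 0 := by simp [hΘ]
  set T := ∫ v in (0 : ℝ)..1, (g v)⁻¹ with hT
  have hΘ1 : Θ 1 = T := rfl
  have hTpos : 0 < T := by
    have := hmono zero_lt_one
    rwa [hΘ0, hΘ1] at this
  have hper : Function.Periodic (fun v => (g v)⁻¹) 1 := by
    intro v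
    simp only [hp]
  have hadd1 : ∀ u, Θ (u + 1) = Θ u + T := by
    intro u
    simp only [hΘ, hT]
    rw [← intervalIntegral.integral_add_adjacent_intervals (hi 0 u) (hi u (u + 1)),
      hper.intervalIntegral_add_eq u 0, zero_add]
  have haddn : ∀ (u : ℝ) (m : ℕ), Θ (u + m) = Θ u + m * T := by
    intro u m
    induction m with
    | zero => simp
    | succ m ih =>
      rw [Nat.cast_succ, ← add_assoc, hadd1, ih]
      ring
  have haddz : ∀ (u : ℝ) (m : ℤ), Θ (u + m) = Θ u + m * T := by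
    intro u m
    obtain ⟨k, rfl | rfl⟩ := m.eq_nat_or_neg
    · exact_mod_cast haddn u k
    · have := haddn (u + ((-(k : ℤ) : ℤ) : ℝ)) k
      push_cast at this ⊢
      rw [show u + -(k : ℝ) + k = u by ring] at this
      rw [this]
      ring
  have hΘb : ∀ u, |T * u - Θ u| ≤ T := by
    intro u
    have h1 : Θ u = Θ (Int.fract u) + ⌊u⌋ * T := by
      rw [← haddz, Int.fract_add_floor]
    have h2 : 0 ≤ Θ (Int.fract u) := by
      have := hmono.monotone (Int.fract_nonneg u)
      rwa [hΘ0] at this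
    have h3 : Θ (Int.fract u) ≤ T := hmono.monotone (Int.fract_lt_one u).le
    have h4 : T * u - Θ u = T * Int.fract u - Θ (Int.fract u) := by
      rw [h1, ← Int.self_sub_floor u]
      ring
    have h5 : 0 ≤ T * Int.fract u := mul_nonneg hTpos.le (Int.fract_nonneg u)
    have h6 : T * Int.fract u ≤ T := by
      have := mul_le_mul_of_nonneg_left (Int.fract_lt_one u).le hTpos.le
      rwa [mul_one] at this
    rw [h4, abs_le]
    constructor <;> linarith
  have hΘW : ∀ t, Θ (W t) = Θ (W 0) + t := by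
    intro t
    have h1 : ∀ s, HasDerivAt (fun s => Θ (W s) - s) 0 s := by
      intro s
      have h2 := ((hΘd (W s)).comp s (hW s)).sub (hasDerivAt_id' s)
      refine h2.congr_deriv ?_
      rw [inv_mul_cancel₀ (h0 _).ne', sub_self]
    have h2 := is_const_of_deriv_eq_zero (f := fun s => Θ (W s) - s)
      (fun s => (h1 s).differentiableAt) (fun s => (h1 s).deriv) t 0
    simp only [sub_zero] at h2
    linarith
  refine ⟨⟨1 + T⁻¹ * |Θ (W 0)|, fun t => ?_⟩, fun N t => hmono.injective (by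
    rw [hΘW (t + N * T), haddz, hΘW t]
    ring)⟩
  have h1 : W t - T⁻¹ * t = T⁻¹ * (T * W t - Θ (W t)) + T⁻¹ * Θ (W 0) := by
    rw [hΘW]
    field_simp
    ring
  rw [h1]
  refine (abs_add_le _ _).trans ?_
  rw [abs_mul, abs_mul, abs_of_pos (inv_pos.2 hTpos)]
  have h2 : T⁻¹ * |T * W t - Θ (W t)| ≤ 1 := by
    rw [inv_mul_le_iff₀ hTpos, mul_one]
    exact hΘb _
  linarith

end Pool.Agent.helper94.MF
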