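import Pool.Agent.helper94.MF.Fol

/-!
# Minimal foliations of every slope for the potentials `f (m u - k · x) + h (x)`
-/

set_option autoImplicit false

open MeasureTheory Set Filter Topology
open scoped ContDiff NNReal

namespace Pool.Agent.helper94.MF

/-- The integral of a derivative of a function with compact support. -/
lemma integral_fderiv_zero {n : ℕ} {φ : (Fin n → ℝ) → ℝ} (hφ : ContDiff ℝ ∞ φ)
    (hφc : HasCompactSupport φ) {Ω : Set (Fin n → ℝ)} (hR : tsupport φ ⊆ Ω) (e : Fin n → ℝ) :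
    ∫ x in Ω, fderiv ℝ φ x e = 0 := by
  have hd : ∀ x, DifferentiableAt ℝ φ x := fun x => (hφ.differentiable (by simp)) x
  have hdc : Continuous (fun x => fderiv ℝ φ x e) :=
    (hφ.continuous_fderiv (by simp)).clm_apply continuous_const
  have hds : HasCompactSupport (fun x => fderiv ℝ φ x e) :=
    (hφc.fderiv (𝕜 := ℝ)).comp_left (g := fun L : (Fin n → ℝ) →L[ℝ] ℝ => L e) (by simp)
  have hint0 : ∫ x, fderiv ℝ φ x e = 0 := by
    have := integral_mul_fderiv_eq_neg_fderiv_mul_of_integrable (μ := (volume : Measure (Fin n → ℝ)))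
      (f := fun _ : Fin n → ℝ => (1 : ℝ)) (g := φ) (v := e)
      (by simp) (by simpa using hdc.integrable_of_hasCompactSupport hds)
      (by simpa using hφ.continuous.integrable_of_hasCompactSupport hφc)
      (fun x _ => differentiableAt_const _) (fun x _ => hd x)
    simpa using this
  rw [← hint0]
  refine setIntegral_eq_integral_of_forall_compl_eq_zero fun x hx => ?_
  have hx' : x ∉ tsupport φ := fun h => hx (hR h)
  have : x ∉ tsupport (fderiv ℝ φ) := fun h => hx' (tsupport_fderiv_subset ℝ h)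
  rw [image_eq_zero_of_notMem_tsupport this]
  rfl

/-- Linear combination of integrals. -/
lemma int_lin {n : ℕ} {Ω : Set (Fin n → ℝ)} {P Q A B D : (Fin n → ℝ) → ℝ}
    (hP : IntegrableOn P Ω) (hQ : IntegrableOn Q Ω) (hA : IntegrableOn A Ω)
    (hB : IntegrableOn B Ω) (hD : IntegrableOn D Ω) {a b : ℝ}
    (h : ∀ x, P x - Q x = a * (A x - B x) + b * D x) (h0 : ∫ x in Ω, D x = 0) :
    (∫ x in Ω, P x) - ∫ x in Ω, Q x = a * ((∫ x in Ω, A x) - ∫ x in Ω, B x) := by
  have hAB : IntegrableOn (fun x => A x - B x) Ω := hA.sub hB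
  rw [← integral_sub hP hQ, ← integral_sub hA hB]
  have h3 : ∫ x in Ω, (P x - Q x) = ∫ x in Ω, (a * (A x - B x) + b * D x) := by
    congr 1
    funext x
    exact h x
  rw [h3, integral_add (hAB.const_mul a) (hD.const_mul b), integral_const_mul,
    integral_const_mul, h0, mul_zero, add_zero]

/-- Transfer of minimality. -/
lemma minimal_wave {n : ℕ} {f : ℝ → ℝ} (hf : Continuous f) {h : (Fin n → ℝ) → ℝ}
    (hh : Continuous h) {m : ℝ} (hm : m ≠ 0) (k : Fin n → ℝ) {w : (Fin n → ℝ) → ℝ}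
    (hw : Minimal (fun u _ => m ^ 2 * f u + 0) w) :
    Minimal (fun u x => f (m * u - ∑ i, k i * x i) + h x)
      (fun x => (w x + ∑ i, k i * x i) / m) := by
  classical
  obtain ⟨hws, hwm⟩ := hw
  have hκ : ContDiff ℝ ∞ (fun x : Fin n → ℝ => ∑ i, k i * x i) := by fun_prop
  refine ⟨(hws.add hκ).div_const m, ?_⟩
  intro Ω hΩ hb φ hφ hφc hR
  -- the support of `m φ`
  have hmφ : ContDiff ℝ ∞ (fun x => m * φ x) := contDiff_const.mul hφ
  have hsup : tsupport (fun x => m * φ x) ⊆ tsupport φ := by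
    refine closure_mono fun x hx => ?_
    rw [Function.mem_support] at hx ⊢
    exact right_ne_zero_of_mul hx
  have hmφc : HasCompactSupport (fun x => m * φ x) :=
    HasCompactSupport.of_support_subset_isCompact hφc
      ((subset_tsupport _).trans hsup)
  have hA := hwm Ω hΩ hb _ hmφ hmφc (hsup.trans hR)
  obtain ⟨R, hRb⟩ := hb.subset_closedBall (0 : Fin n → ℝ)
  have hball : ∀ f : (Fin n → ℝ) → ℝ, Continuous f → IntegrableOn f Ω := fun f hf =>
    (hf.continuousOn.integrableOn_compact (isCompact_closedBall (0 : Fin n → ℝ) R)).mono_set hRb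
  -- the derivatives
  have hwd : ∀ x, HasFDerivAt w (fderiv ℝ w x) x := fun x =>
    ((hws.differentiable (by simp)) x).hasFDerivAt
  have hφd : ∀ x, HasFDerivAt φ (fderiv ℝ φ x) x := fun x =>
    ((hφ.differentiable (by simp)) x).hasFDerivAt
  set ℓ : (Fin n → ℝ) →L[ℝ] ℝ := ∑ i, k i • ContinuousLinearMap.proj i with hℓ
  have hℓx : ∀ x, ℓ x = ∑ i, k i * x i := by
    intro x
    simp [hℓ]
  have hℓs : ∀ i, ℓ (Pi.single i (1 : ℝ)) = k i := by
    intro i
    simp [hℓ, Pi.single_apply]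
  have hκe : (fun x : Fin n → ℝ => ∑ i, k i * x i) = fun x => ℓ x := funext fun x => (hℓx x).symm
  have hud : ∀ x i, fderiv ℝ (fun x => (w x + ∑ i, k i * x i) / m) x (Pi.single i (1 : ℝ)) =
      (fderiv ℝ w x (Pi.single i (1 : ℝ)) + k i) / m := by
    intro x i
    have h1 : HasFDerivAt (fun x => (w x + ∑ i, k i * x i) / m) (m⁻¹ • (fderiv ℝ w x + ℓ)) x := by
      have h2 : (fun x => (w x + ∑ i, k i * x i) / m) = fun x => m⁻¹ * (w x + ℓ x) := by
        funext x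
        rw [hℓx, div_eq_inv_mul]
      rw [h2]
      exact ((hwd x).add ℓ.hasFDerivAt).const_mul m⁻¹
    rw [h1.fderiv]
    simp only [FunLike.coe_smul, Pi.smul_apply, _root_.add_apply, hℓs,
      smul_eq_mul]
    rw [div_eq_inv_mul]
  have hud' : ∀ x i, fderiv ℝ (fun x => (w x + ∑ i, k i * x i) / m + φ x) x
      (Pi.single i (1 : ℝ)) =
      (fderiv ℝ w x (Pi.single i (1 : ℝ)) + k i) / m + fderiv ℝ φ x (Pi.single i (1 : ℝ)) := by
    intro x i
    have hdu : DifferentiableAt ℝ (fun x => (w x + ∑ i, k i * x i) / m) x :=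
      (((hws.add hκ).div_const m).differentiable (by simp)) x
    rw [fderiv_fun_add hdu (hφd x).differentiableAt, _root_.add_apply, hud]
  have hwd' : ∀ x i, fderiv ℝ (fun x => w x + m * φ x) x (Pi.single i (1 : ℝ)) =
      fderiv ℝ w x (Pi.single i (1 : ℝ)) + m * fderiv ℝ φ x (Pi.single i (1 : ℝ)) := by
    intro x i
    rw [fderiv_fun_add (hwd x).differentiableAt ((hφd x).const_mul m).differentiableAt,
      _root_.add_apply, ((hφd x).const_mul m).fderiv]
    simp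
  have hmu : ∀ x, m * ((w x + ∑ i, k i * x i) / m) - ∑ i, k i * x i = w x := by
    intro x
    field_simp
    ring
  have hmu' : ∀ x, m * ((w x + ∑ i, k i * x i) / m + φ x) - ∑ i, k i * x i = w x + m * φ x := by
    intro x
    field_simp
    ring
  have hfw : Continuous (fderiv ℝ w) := hws.continuous_fderiv (by simp)
  have hfφ : Continuous (fderiv ℝ φ) := hφ.continuous_fderiv (by simp)
  have hwc := hws.continuous
  have hφcont := hφ.continuous
  unfold Action at hA ⊢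
  simp only [hud, hud', hwd', hmu, hmu'] at hA ⊢
  have hzero := integral_fderiv_zero hφ hφc hR k
  have hk : ∀ x, fderiv ℝ φ x k = ∑ i, k i * fderiv ℝ φ x (Pi.single i (1 : ℝ)) := by
    intro x
    conv_lhs => rw [← Finset.univ_sum_single k, map_sum]
    refine Finset.sum_congr rfl fun i _ => ?_
    have : (Pi.single i (k i) : Fin n → ℝ) = k i • Pi.single i (1 : ℝ) := by
      rw [← Pi.single_smul]; simp
    rw [this, map_smul, smul_eq_mul]
  have c1 : Continuous (fun x => (1 / 2 : ℝ) * ∑ i, ((fderiv ℝ w x (Pi.single i (1 : ℝ)) + k i) / m +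
      fderiv ℝ φ x (Pi.single i (1 : ℝ))) ^ 2 - (f (w x + m * φ x) + h x)) := by fun_prop
  have c2 : Continuous (fun x => (1 / 2 : ℝ) * ∑ i, ((fderiv ℝ w x (Pi.single i (1 : ℝ)) + k i) / m) ^ 2 -
      (f (w x) + h x)) := by fun_prop
  have c3 : Continuous (fun x => (1 / 2 : ℝ) * ∑ i, (fderiv ℝ w x (Pi.single i (1 : ℝ)) +
      m * fderiv ℝ φ x (Pi.single i (1 : ℝ))) ^ 2 - (m ^ 2 * f (w x + m * φ x) + 0)) := by fun_prop
  have c4 : Continuous (fun x => (1 / 2 : ℝ) * ∑ i, (fderiv ℝ w x (Pi.single i (1 : ℝ))) ^ 2 -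
      (m ^ 2 * f (w x) + 0)) := by fun_prop
  have c5 : Continuous (fun x => fderiv ℝ φ x k) := by fun_prop
  have hpt : ∀ x, ((1 / 2 : ℝ) * ∑ i, ((fderiv ℝ w x (Pi.single i (1 : ℝ)) + k i) / m +
      fderiv ℝ φ x (Pi.single i (1 : ℝ))) ^ 2 - (f (w x + m * φ x) + h x)) -
      ((1 / 2 : ℝ) * ∑ i, ((fderiv ℝ w x (Pi.single i (1 : ℝ)) + k i) / m) ^ 2 -
        (f (w x) + h x)) =
      (m ^ 2)⁻¹ * (((1 / 2 : ℝ) * ∑ i, (fderiv ℝ w x (Pi.single i (1 : ℝ)) +
        m * fderiv ℝ φ x (Pi.single i (1 : ℝ))) ^ 2 - (m ^ 2 * f (w x + m * φ x) + 0)) -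
        ((1 / 2 : ℝ) * ∑ i, (fderiv ℝ w x (Pi.single i (1 : ℝ))) ^ 2 - (m ^ 2 * f (w x) + 0))) +
      m⁻¹ * fderiv ℝ φ x k := by
    intro x
    have hs : ∀ a b c : Fin n → ℝ, (1 / 2 : ℝ) * ∑ i, ((a i + c i) / m + b i) ^ 2 -
        (1 / 2 : ℝ) * ∑ i, ((a i + c i) / m) ^ 2 =
        (m ^ 2)⁻¹ * ((1 / 2 : ℝ) * ∑ i, (a i + m * b i) ^ 2 - (1 / 2 : ℝ) * ∑ i, (a i) ^ 2) +
        m⁻¹ * ∑ i, c i * b i := by
      intro a b c
      rw [Finset.mul_sum, Finset.mul_sum, Finset.mul_sum, Finset.mul_sum, Finset.mul_sum,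
        ← Finset.sum_sub_distrib, ← Finset.sum_sub_distrib, Finset.mul_sum,
        ← Finset.sum_add_distrib]
      refine Finset.sum_congr rfl fun i _ => ?_
      field_simp
      ring
    have h1 := hs (fun i => fderiv ℝ w x (Pi.single i (1 : ℝ)))
      (fun i => fderiv ℝ φ x (Pi.single i (1 : ℝ))) k
    rw [hk x]
    have h2 : (m ^ 2)⁻¹ * (m ^ 2) = 1 := inv_mul_cancel₀ (pow_ne_zero 2 hm)
    linear_combination h1 + (f (w x + m * φ x) - f (w x)) * h2
  have hI := int_lin (hball _ c1) (hball _ c2) (hball _ c3) (hball _ c4) (hball _ c5) hpt hzero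
  have h4 : 0 ≤ (m ^ 2)⁻¹ := by positivity
  have h5 := mul_nonneg h4 (sub_nonneg.2 hA)
  rw [← hI] at h5
  linarith

/-- Periodicity of linear functions with integral coefficients. -/
lemma lin_add_single {n : ℕ} (k : Fin n → ℤ) (x : Fin n → ℝ) (i : Fin n) :
    ∑ j, (k j : ℝ) * (x + (Pi.single i (1 : ℝ) : Fin n → ℝ)) j =
      ∑ j, (k j : ℝ) * x j + k i := by
  classical
  simp only [Pi.add_apply, mul_add, Finset.sum_add_distrib]
  congr 1
  rw [Finset.sum_eq_single i]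
  · simp
  · intro b _ hb
    simp [Pi.single_eq_of_ne hb]
  · intro h; exact absurd (Finset.mem_univ _) h

/-- Functions of period `1` and integers. -/
lemma per_int {β : Type*} {f : ℝ → β} (hper : ∀ u, f (u + 1) = f u) (u : ℝ) (l : ℤ) :
    f (u + l) = f u := by
  have hP : Function.Periodic f 1 := hper
  have := (hP.int_mul l) u
  rwa [mul_one] at this

/-- The theorem for the potentials `f (m u - k · x) + h (x)`. -/
theorem exists_minFol_wave {n : ℕ} (hn : 1 ≤ n) {f : ℝ → ℝ} {h : (Fin n → ℝ) → ℝ}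
    (hf : ContDiff ℝ ∞ f) (hper : ∀ u, f (u + 1) = f u) (hh : Continuous h)
    {m : ℤ} (hm : m ≠ 0) (k : Fin n → ℤ) (α : Fin n → ℝ) :
    ∃ (F : Set ((Fin n → ℝ) → ℝ)) (p : ℝ → (Fin n → ℝ) → (Fin n → ℝ)),
      MinFol (fun u x => f (m * u - ∑ i, (k i : ℝ) * x i) + h x) α F ∧
      (∀ u ∈ F, ∀ x i, fderiv ℝ u x (Pi.single i (1 : ℝ)) = p (u x) x i) ∧
      (∀ u x, p (u + 1) x = p u x) ∧ (∀ u x i, p u (x + Pi.single i (1 : ℝ)) = p u x) ∧
      (∃ K : ℝ≥0, LipschitzWith K (fun z : ℝ × (Fin n → ℝ) => p z.1 z.2)) ∧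
      ((((∃ i, m * α i ≠ k i)) ∨ ∃ (q : ℝ → ℝ) (M : ℝ), ContDiff ℝ ∞ q ∧ (∀ u, 0 ≤ q u) ∧
        (∃ u, q u = 0) ∧ ∀ u, f u = M - q u ^ 2 / 2) →
        ContDiff ℝ ∞ (fun z : ℝ × (Fin n → ℝ) => p z.1 z.2)) ∧
      ((∃ i, m * α i ≠ k i) → ∀ u ∈ F, ∀ (j : Fin n → ℤ) (N : ℤ), ∑ i, α i * j i = N →
        ∀ x, u (x + fun i => (j i : ℝ)) = u x + N) := by
  classical
  have hm' : (m : ℝ) ≠ 0 := by exact_mod_cast hm
  obtain ⟨F, p, hF, hFp, hp1, ⟨K, hK⟩, hsm, hpd⟩ := exists_minFol hn (f := fun u => (m : ℝ) ^ 2 * f u)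
    (h := fun _ => 0) (contDiff_const.mul hf) (fun u => by simp only [hper]) continuous_const
    (fun i => m * α i - k i)
  set ℓ : (Fin n → ℝ) →L[ℝ] ℝ := ∑ i, (k i : ℝ) • ContinuousLinearMap.proj i with hℓ
  have hℓx : ∀ x, ℓ x = ∑ i, (k i : ℝ) * x i := by
    intro x
    simp [hℓ]
  have hℓs : ∀ i, ℓ (Pi.single i (1 : ℝ)) = k i := by
    intro i
    simp [hℓ, Pi.single_apply]
  refine ⟨{u | ∃ w ∈ F, u = fun x => (w x + ∑ i, (k i : ℝ) * x i) / m},
    fun u x i => (p (m * u - ∑ i, (k i : ℝ) * x i) i + k i) / m, ⟨?_, ?_, ?_, ?_⟩, ?_, ?_, ?_,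
    ?_, ?_, ?_⟩
  · rintro u ⟨w, hw, rfl⟩
    exact minimal_wave hf.continuous hh hm' (fun i => (k i : ℝ)) (hF.minimal w hw)
  · rintro u ⟨w, hw, rfl⟩
    obtain ⟨C, hC⟩ := hF.slope w hw
    refine ⟨C / |(m : ℝ)|, fun x => ?_⟩
    have h1 := hC x
    have h2 : (w x + ∑ i, (k i : ℝ) * x i) / m - ∑ i, α i * x i =
        (w x - ∑ i, (m * α i - k i) * x i) / m := by
      have h3 : ∑ i, (m * α i - k i) * x i = m * ∑ i, α i * x i - ∑ i, (k i : ℝ) * x i := by
        rw [Finset.mul_sum, ← Finset.sum_sub_distrib]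
        exact Finset.sum_congr rfl fun i _ => by ring
      rw [h3]
      field_simp
      ring
    rw [h2, abs_div]
    exact div_le_div_of_nonneg_right h1 (abs_nonneg _)
  · rintro u ⟨w, hw, rfl⟩ j l
    refine ⟨fun x => w (x + fun i => (j i : ℝ)) + ((∑ i, k i * j i + m * l : ℤ) : ℝ),
      hF.shift w hw j _, ?_⟩
    funext x
    push_cast
    simp only [Pi.add_apply, mul_add, Finset.sum_add_distrib]
    field_simp
    ring
  · intro x y
    obtain ⟨w, ⟨hw, hwy⟩, hu⟩ := hF.cover x (m * y - ∑ i, (k i : ℝ) * x i)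
    refine ⟨fun x => (w x + ∑ i, (k i : ℝ) * x i) / m, ⟨⟨w, hw, rfl⟩, ?_⟩, ?_⟩
    · simp only [hwy]
      field_simp
      ring
    · rintro u ⟨⟨w', hw', rfl⟩, hy⟩
      have h1 : w' x = m * y - ∑ i, (k i : ℝ) * x i := by
        simp only at hy
        rw [← hy]
        field_simp
        ring
      rw [hu w' ⟨hw', h1⟩]
  · rintro u ⟨w, hw, rfl⟩ x i
    have hwd : HasFDerivAt w (fderiv ℝ w x) x :=
      (((hF.minimal w hw).1.differentiable (by simp)) x).hasFDerivAt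
    have h1 : HasFDerivAt (fun x => (w x + ∑ i, (k i : ℝ) * x i) / m)
        ((m : ℝ)⁻¹ • (fderiv ℝ w x + ℓ)) x := by
      have h2 : (fun x => (w x + ∑ i, (k i : ℝ) * x i) / m) =
          fun x => (m : ℝ)⁻¹ * (w x + ℓ x) := by
        funext x
        rw [hℓx, div_eq_inv_mul]
      rw [h2]
      exact (hwd.add ℓ.hasFDerivAt).const_mul (m : ℝ)⁻¹
    rw [h1.fderiv]
    simp only [FunLike.coe_smul, Pi.smul_apply, _root_.add_apply, hℓs, smul_eq_mul]
    have h3 : (m : ℝ) * ((w x + ∑ i, (k i : ℝ) * x i) / m) - ∑ i, (k i : ℝ) * x i = w x := by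
      field_simp
      ring
    rw [hFp w hw x i, h3, div_eq_inv_mul]
  · intro u x
    funext i
    have h1 : (m : ℝ) * (u + 1) - ∑ i, (k i : ℝ) * x i =
        (m : ℝ) * u - ∑ i, (k i : ℝ) * x i + m := by ring
    simp only [h1]
    rw [per_int hp1]
  · intro u x i
    funext i'
    have h1 : (m : ℝ) * u - (∑ j, (k j : ℝ) * x j + k i) =
        (m : ℝ) * u - ∑ j, (k j : ℝ) * x j + ((-k i : ℤ) : ℝ) := by
      push_cast
      ring
    simp only [lin_add_single, h1]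
    rw [per_int hp1]
  · have hlin : LipschitzWith ‖(m : ℝ) • ContinuousLinearMap.fst ℝ ℝ (Fin n → ℝ) -
        ℓ.comp (ContinuousLinearMap.snd ℝ ℝ (Fin n → ℝ))‖₊
        (fun z : ℝ × (Fin n → ℝ) => (m : ℝ) * z.1 - ∑ i, (k i : ℝ) * z.2 i) := by
      have h1 := ((m : ℝ) • ContinuousLinearMap.fst ℝ ℝ (Fin n → ℝ) -
        ℓ.comp (ContinuousLinearMap.snd ℝ ℝ (Fin n → ℝ))).lipschitz
      have h2 : (fun z : ℝ × (Fin n → ℝ) => (m : ℝ) * z.1 - ∑ i, (k i : ℝ) * z.2 i) =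
          ⇑((m : ℝ) • ContinuousLinearMap.fst ℝ ℝ (Fin n → ℝ) -
        ℓ.comp (ContinuousLinearMap.snd ℝ ℝ (Fin n → ℝ))) := by
        funext z
        rw [← hℓx]
        rfl
      rw [h2]
      exact h1
    have hcomp := hK.comp hlin
    refine ⟨‖(m : ℝ)⁻¹‖₊ * (K * ‖(m : ℝ) • ContinuousLinearMap.fst ℝ ℝ (Fin n → ℝ) -
        ℓ.comp (ContinuousLinearMap.snd ℝ ℝ (Fin n → ℝ))‖₊),
      LipschitzWith.of_dist_le_mul fun a b => ?_⟩
    refine (dist_pi_le_iff (by positivity)).2 fun i => ?_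
    have h1 := (dist_le_pi_dist _ _ i).trans (hcomp.dist_le_mul a b)
    simp only [Function.comp] at h1
    rw [Real.dist_eq] at h1 ⊢
    have h2 : (p ((m : ℝ) * a.1 - ∑ i, (k i : ℝ) * a.2 i) i + k i) / m -
        (p ((m : ℝ) * b.1 - ∑ i, (k i : ℝ) * b.2 i) i + k i) / m =
        (m : ℝ)⁻¹ * (p ((m : ℝ) * a.1 - ∑ i, (k i : ℝ) * a.2 i) i -
          p ((m : ℝ) * b.1 - ∑ i, (k i : ℝ) * b.2 i) i) := by
      field_simp
      ring
    rw [h2, abs_mul, NNReal.coe_mul, coe_nnnorm, Real.norm_eq_abs, mul_assoc]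
    exact mul_le_mul_of_nonneg_left h1 (abs_nonneg _)
  · intro hcase
    have hp : ContDiff ℝ ∞ p := by
      apply hsm
      rcases hcase with ⟨i, hi⟩ | ⟨q, M, hq, hq0, hqz, hqf⟩
      · left
        intro h0
        apply hi
        have h1 := congrFun h0 i
        simp only [Pi.zero_apply] at h1
        linarith
      · right
        refine ⟨fun u => |(m : ℝ)| * q u, (m : ℝ) ^ 2 * M, contDiff_const.mul hq,
          fun u => mul_nonneg (abs_nonneg _) (hq0 u), ?_, fun u => ?_⟩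
        · obtain ⟨z, hz⟩ := hqz
          exact ⟨z, by
            show |(m : ℝ)| * q z = 0
            rw [hz, mul_zero]⟩
        · simp only
          rw [hqf u, mul_pow, sq_abs]
          ring
    refine contDiff_pi.2 fun i => ?_
    have h1 : ContDiff ℝ ∞ (fun u => p u i) := (contDiff_pi.1 hp) i
    have h2 : ContDiff ℝ ∞ (fun z : ℝ × (Fin n → ℝ) => (m : ℝ) * z.1 - ∑ i, (k i : ℝ) * z.2 i) := by
      fun_prop
    exact ((h1.comp h2).add contDiff_const).div_const _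
  · rintro ⟨i, hi⟩ u ⟨w, hw, rfl⟩ j N hN x
    have h0 : (fun i => (m : ℝ) * α i - k i) ≠ 0 := by
      intro h0
      apply hi
      have h1 := congrFun h0 i
      simp only [Pi.zero_apply] at h1
      linarith
    have h1 : ∑ i, ((m : ℝ) * α i - k i) * j i = ((m * N - ∑ i, k i * j i : ℤ) : ℝ) := by
      push_cast
      rw [← hN, Finset.mul_sum, ← Finset.sum_sub_distrib]
      exact Finset.sum_congr rfl fun i _ => by ring
    have h2 := hpd h0 w hw j _ h1 x
    have h3 : ∑ i, (k i : ℝ) * (x + fun i => (j i : ℝ)) i =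
        ∑ i, (k i : ℝ) * x i + ∑ i, (k i : ℝ) * j i := by
      simp only [Pi.add_apply, mul_add, Finset.sum_add_distrib]
    show (w (x + fun i => (j i : ℝ)) + ∑ i, (k i : ℝ) * (x + fun i => (j i : ℝ)) i) / m =
      (w x + ∑ i, (k i : ℝ) * x i) / m + N
    rw [h2, h3]
    push_cast
    field_simp
    ring

end Pool.Agent.helper94.MF
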